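import Mathlib.Algebra.Order.Archimedean.Real.Basic
import Mathlib.Data.Fintype.Card
import Mathlib.Algebra.Group.Fin.Basic
import Mathlib.Tactic

set_option autoImplicit false

/-!
# MP_6677ae_co: the lazy burning number does not determine the round-based burning number

For every `ℓ` there is a connected hypergraph without isolated vertices and there are proportions
`p`, `q` for which both lazy burning numbers are `1`, while the round-based burning numbers differ
by at least `ℓ`.
-/

namespace Pool.Agent.Results.MP_6677ae_co.LazyDoesNotDetermine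

open Finset

variable {V : Type} [DecidableEq V]

/-- One application of the spread rule with proportion `p` to the set `F` of burning vertices of the
hypergraph with edge family `E`: every edge `e` with at least `⌈p |e|⌉` burning vertices catches
fire. Burning vertices stay burning. -/
noncomputable def spread (E : Finset (Finset V)) (p : ℝ) (F : Finset V) : Finset V :=
  F ∪ (E.filter fun e => ⌈p * (e.card : ℝ)⌉₊ ≤ (F ∩ e).card).biUnion id

/-- The set of burning vertices at the end of the rounds in which the vertices of the list have been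
chosen by the player; the last choice is the head of the list. In each round the fire spreads from
the set `fire E p l` of the previous round and at the same time the chosen vertex is set on fire. -/
noncomputable def fire (E : Finset (Finset V)) (p : ℝ) : List V → Finset V
  | [] => ∅
  | u :: l => insert u (spread E p (fire E p l))

/-- Each chosen vertex was not burning at the end of the previous round (the last choice is the head
of the list). -/
def Valid (E : Finset (Finset V)) (p : ℝ) : List V → Prop
  | [] => True
  | u :: l => u ∉ fire E p l ∧ Valid E p l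

/-- The round-based burning number `b_p(H)`: the minimum length of a burning sequence. -/
noncomputable def roundNumber [Fintype V] (E : Finset (Finset V)) (p : ℝ) : ℕ :=
  sInf {k | ∃ l : List V, l.length = k ∧ Valid E p l ∧ fire E p l = univ}

/-- `S` is a lazy burning set: applying the spread rule again and again to `S` eventually yields all
vertices. -/
def IsLazySet [Fintype V] (E : Finset (Finset V)) (p : ℝ) (S : Finset V) : Prop :=
  ∃ m : ℕ, (spread E p)^[m] S = univ

/-- The lazy burning number `b_{L,p}(H)`: the minimum size of a lazy burning set. -/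
noncomputable def lazyNumber [Fintype V] (E : Finset (Finset V)) (p : ℝ) : ℕ :=
  sInf {k | ∃ S : Finset V, S.card = k ∧ IsLazySet E p S}

/-! ### Generalities -/

lemma subset_spread (E : Finset (Finset V)) (p : ℝ) (F : Finset V) : F ⊆ spread E p F :=
  subset_union_left

lemma card_fire_lt (E : Finset (Finset V)) (p : ℝ) (u : V) (l : List V) (h : u ∉ fire E p l) :
    (fire E p l).card < (fire E p (u :: l)).card := by
  apply card_lt_card
  refine ⟨(subset_spread E p _).trans (subset_insert _ _), fun h2 => h (h2 (mem_insert_self _ _))⟩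

/-- A burning sequence always exists. -/
lemma exists_burning [Fintype V] (E : Finset (Finset V)) (p : ℝ) :
    ∃ l : List V, Valid E p l ∧ fire E p l = univ := by
  by_contra hcon
  push Not at hcon
  have h : ∀ k : ℕ, ∃ l : List V, Valid E p l ∧ k ≤ (fire E p l).card := by
    intro k
    induction k with
    | zero => exact ⟨[], trivial, Nat.zero_le _⟩
    | succ k ih =>
      obtain ⟨l, hl, hk⟩ := ih
      obtain ⟨u, hu⟩ : ∃ u, u ∉ fire E p l := by
        by_contra h2
        push Not at h2
        exact hcon l hl (eq_univ_iff_forall.mpr h2)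
      exact ⟨u :: l, ⟨hu, hl⟩, by have := card_fire_lt E p u l hu; omega⟩
  obtain ⟨l, _, h2⟩ := h (Fintype.card V + 1)
  have := card_le_univ (fire E p l)
  omega

/-! ### The cycle with one additional edge containing all vertices -/

/-- The edges of the hypergraph: the edges `{x, x + 1}` of the cycle on the vertex set `Fin (n + 1)`
and the set of all vertices. -/
noncomputable def edges (n : ℕ) : Finset (Finset (Fin (n + 1))) :=
  insert univ (univ.image fun x => {x, x + 1})

lemma mem_spread_of_edge {E : Finset (Finset V)} {p : ℝ} {F e : Finset V} {x : V} (he : e ∈ E)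
    (h : ⌈p * (e.card : ℝ)⌉₊ ≤ (F ∩ e).card) (hx : x ∈ e) : x ∈ spread E p F := by
  unfold spread
  rw [mem_union, mem_biUnion]
  exact Or.inr ⟨e, mem_filter.mpr ⟨he, h⟩, hx⟩

/-- If the edge containing all vertices does not catch fire, then the fire spreads to the neighbours
on the cycle only. -/
lemma spread_card_le (n : ℕ) (F : Finset (Fin (n + 1))) (p : ℝ) (hp : 0 < p)
    (hF : F.card < ⌈p * ((n + 1 : ℕ) : ℝ)⌉₊) : (spread (edges n) p F).card ≤ 3 * F.card := by
  have h : spread (edges n) p F ⊆ F ∪ (F.image (fun x => x + 1) ∪ F.image (fun x => x - 1)) := by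
    intro y hy
    unfold spread at hy
    rw [mem_union, mem_biUnion] at hy
    rcases hy with hy | ⟨e, he, hye⟩
    · exact mem_union_left _ hy
    · rw [mem_filter] at he
      obtain ⟨he1, he2⟩ := he
      unfold edges at he1
      rw [mem_insert] at he1
      rcases he1 with rfl | he1
      · exfalso
        rw [inter_univ, card_univ, Fintype.card_fin] at he2
        omega
      · obtain ⟨x, _, rfl⟩ := mem_image.mp he1
        have hpos : 0 < (F ∩ {x, x + 1}).card := by
          refine lt_of_lt_of_le ?_ he2
          rw [Nat.ceil_pos]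
          have : 0 < (({x, x + 1} : Finset (Fin (n + 1))).card : ℝ) := by
            exact_mod_cast card_pos.mpr ⟨x, mem_insert_self _ _⟩
          positivity
        obtain ⟨z, hz⟩ := card_pos.mp hpos
        rw [mem_inter, mem_insert, mem_singleton] at hz
        simp only [id, mem_insert, mem_singleton] at hye
        rw [mem_union, mem_union, mem_image, mem_image]
        obtain ⟨hzF, hz | hz⟩ := hz
        · subst hz
          rcases hye with rfl | rfl
          · exact Or.inl hzF
          · exact Or.inr (Or.inl ⟨z, hzF, rfl⟩)
        · rcases hye with rfl | rfl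
          · exact Or.inr (Or.inr ⟨z, hzF, by rw [hz]; simp⟩)
          · exact Or.inl (hz ▸ hzF)
  calc (spread (edges n) p F).card
      ≤ (F ∪ (F.image (fun x => x + 1) ∪ F.image (fun x => x - 1))).card := card_le_card h
    _ ≤ F.card + (F.image (fun x => x + 1) ∪ F.image (fun x => x - 1)).card := card_union_le _ _
    _ ≤ F.card + ((F.image (fun x => x + 1)).card + (F.image (fun x => x - 1)).card) := by
        gcongr; exact card_union_le _ _
    _ ≤ F.card + (F.card + F.card) := by
        exact Nat.add_le_add_left (Nat.add_le_add card_image_le card_image_le) _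
    _ = 3 * F.card := by ring

/-- One burning vertex suffices in the lazy game if the edges of the cycle catch fire as soon as one
of their vertices is burning. -/
lemma lazy_one (n : ℕ) (p : ℝ) (hp1 : p ≤ 1 / 2) : IsLazySet (edges n) p {0} := by
  have hstep : ∀ m : ℕ, ∀ x : Fin (n + 1), (x : ℕ) ≤ m →
      x ∈ (spread (edges n) p)^[m] ({0} : Finset (Fin (n + 1))) := by
    intro m
    induction m with
    | zero =>
      intro x hx
      have : x = 0 := by
        apply Fin.ext
        simpa using hx
      simp [this]
    | succ m ih =>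
      intro x hx
      rw [Function.iterate_succ_apply']
      by_cases hxm : (x : ℕ) ≤ m
      · exact subset_spread _ _ _ (ih x hxm)
      · have hx1 : (x : ℕ) = m + 1 := by omega
        have hlt := x.isLt
        let y : Fin (n + 1) := ⟨m, by omega⟩
        have hy : y + 1 = x := by
          apply Fin.ext
          rw [Fin.val_add_one_of_lt]
          · exact hx1.symm
          · rw [Fin.lt_def]
            show m < n
            omega
        refine mem_spread_of_edge (e := {y, y + 1}) ?_ ?_ ?_
        · unfold edges
          exact mem_insert_of_mem (mem_image_of_mem _ (mem_univ _))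
        · have h1 : (({y, y + 1} : Finset (Fin (n + 1))).card : ℝ) ≤ 2 := by
            exact_mod_cast card_le_two
          have h2 : ⌈p * (({y, y + 1} : Finset (Fin (n + 1))).card : ℝ)⌉₊ ≤ 1 := by
            rw [Nat.ceil_le]
            have h0 : (0 : ℝ) ≤ (({y, y + 1} : Finset (Fin (n + 1))).card : ℝ) := by positivity
            push_cast
            nlinarith
          refine h2.trans (card_pos.mpr ⟨y, ?_⟩)
          rw [mem_inter]
          exact ⟨ih y le_rfl, mem_insert_self _ _⟩
        · rw [← hy]
          simp
  refine ⟨n, eq_univ_iff_forall.mpr fun x => hstep n x ?_⟩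
  have := x.isLt
  omega

lemma spread_empty (E : Finset (Finset V)) (p : ℝ) (hp : 0 < p) : spread E p ∅ = ∅ := by
  unfold spread
  rw [empty_union, eq_empty_iff_forall_notMem]
  intro x hx
  rw [mem_biUnion] at hx
  obtain ⟨e, he, hxe⟩ := hx
  rw [mem_filter, empty_inter, card_empty, Nat.le_zero, Nat.ceil_eq_zero] at he
  have h1 : 0 < (e.card : ℝ) := by exact_mod_cast card_pos.mpr ⟨x, hxe⟩
  have h2 : 0 < p * (e.card : ℝ) := by positivity
  linarith [he.2]

lemma lazyNumber_eq_one (n : ℕ) (p : ℝ) (hp : 0 < p) (hp1 : p ≤ 1 / 2) :
    lazyNumber (edges n) p = 1 := by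
  have h1 : lazyNumber (edges n) p ≤ 1 := Nat.sInf_le ⟨{0}, card_singleton _, lazy_one n p hp1⟩
  have h2 : lazyNumber (edges n) p ≠ 0 := by
    intro h0
    have hne : {k | ∃ S : Finset (Fin (n + 1)), S.card = k ∧ IsLazySet (edges n) p S}.Nonempty :=
      ⟨1, {0}, card_singleton _, lazy_one n p hp1⟩
    have hmem := Nat.sInf_mem hne
    unfold lazyNumber at h0
    rw [h0] at hmem
    obtain ⟨S, hS, m, hm⟩ := hmem
    rw [card_eq_zero] at hS
    subst hS
    have hfix : (spread (edges n) p)^[m] ∅ = ∅ :=
      Function.iterate_fixed (spread_empty _ p hp) m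
    rw [hfix] at hm
    exact absurd (hm ▸ mem_univ (0 : Fin (n + 1))) (notMem_empty _)
  omega

/-- If `p` is so small that one burning vertex suffices for every edge, two rounds suffice. -/
lemma roundNumber_eq_two (n : ℕ) (hn : 1 ≤ n) (p : ℝ) (hp : 0 < p) (hp1 : p * (n + 1) ≤ 1) :
    roundNumber (edges n) p = 2 := by
  have hspread : spread (edges n) p {0} = univ := by
    refine eq_univ_iff_forall.mpr fun x => mem_spread_of_edge (e := univ) ?_ ?_ (mem_univ _)
    · exact mem_insert_self _ _
    · rw [inter_univ, card_singleton, card_univ, Fintype.card_fin, Nat.ceil_le]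
      push_cast
      linarith
  have hfire1 : fire (edges n) p [0] = {0} := by
    show insert 0 (spread (edges n) p ∅) = {0}
    rw [spread_empty _ p hp]
    rfl
  have hne10 : (1 : Fin (n + 1)) ≠ 0 := by
    intro h
    have := congrArg Fin.val h
    rw [Fin.val_one', Fin.val_zero, Nat.mod_eq_of_lt (by omega)] at this
    omega
  have hmem2 : 2 ∈ {k | ∃ l : List (Fin (n + 1)), l.length = k ∧ Valid (edges n) p l ∧
      fire (edges n) p l = univ} := by
    refine ⟨[1, 0], rfl, ⟨?_, ?_, trivial⟩, ?_⟩
    · rw [hfire1, mem_singleton]
      exact hne10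
    · exact notMem_empty _
    · show insert 1 (spread (edges n) p (fire (edges n) p [0])) = univ
      rw [hfire1, hspread]
      exact insert_eq_of_mem (mem_univ _)
  have h2 : roundNumber (edges n) p ≤ 2 := Nat.sInf_le hmem2
  have hmem := Nat.sInf_mem ⟨2, hmem2⟩
  have h3 : 2 ≤ roundNumber (edges n) p := by
    by_contra hlt
    push Not at hlt
    change roundNumber (edges n) p ∈ _ at hmem
    obtain ⟨l, hl, _, hfire⟩ := hmem
    match l, hl, hfire with
    | [], _, hfire =>
      have h0 : (0 : Fin (n + 1)) ∈ fire (edges n) p [] := by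
        rw [hfire]
        exact mem_univ _
      exact absurd h0 (notMem_empty _)
    | [u], _, hfire =>
      change insert u (spread (edges n) p ∅) = univ at hfire
      rw [spread_empty _ p hp] at hfire
      have hc := congrArg card hfire
      rw [card_univ, Fintype.card_fin] at hc
      simp at hc
      omega
    | _ :: _ :: _, hl, _ =>
      simp only [List.length_cons] at hl
      omega
  omega

/-- For `p = 1 / 2` the number of burning vertices is at most multiplied by three and increased by
one in each round, as long as fewer than half of the vertices are burning. -/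
lemma fire_card_le (n : ℕ) (l : List (Fin (n + 1))) (hl : 3 ^ l.length ≤ 3 * (n + 1)) :
    2 * (fire (edges n) (1 / 2) l).card + 1 ≤ 3 ^ l.length := by
  induction l with
  | nil => simp [fire]
  | cons u l ih =>
    have hlen : 3 ^ (u :: l).length = 3 * 3 ^ l.length := by
      rw [List.length_cons, pow_succ]; ring
    rw [hlen] at hl ⊢
    have ih' := ih (by omega)
    have hsmall : (fire (edges n) (1 / 2) l).card < ⌈(1 / 2 : ℝ) * ((n + 1 : ℕ) : ℝ)⌉₊ := by
      rw [Nat.lt_ceil]
      have : 2 * (fire (edges n) (1 / 2) l).card + 1 ≤ n + 1 := by omega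
      have h2 : (2 : ℝ) * ((fire (edges n) (1 / 2) l).card : ℝ) + 1 ≤ ((n + 1 : ℕ) : ℝ) := by
        exact_mod_cast this
      linarith
    have h1 := spread_card_le n (fire (edges n) (1 / 2) l) (1 / 2) (by norm_num) hsmall
    have h2 : (fire (edges n) (1 / 2) (u :: l)).card ≤
        (spread (edges n) (1 / 2) (fire (edges n) (1 / 2) l)).card + 1 := card_insert_le _ _
    omega

lemma le_roundNumber (ℓ n : ℕ) (hn : n + 1 = 3 ^ ℓ) : ℓ + 1 ≤ roundNumber (edges n) (1 / 2) := by
  have hne : {k | ∃ l : List (Fin (n + 1)), l.length = k ∧ Valid (edges n) (1 / 2) l ∧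
      fire (edges n) (1 / 2) l = univ}.Nonempty := by
    obtain ⟨l, h1, h2⟩ := exists_burning (edges n) (1 / 2)
    exact ⟨l.length, l, rfl, h1, h2⟩
  have hmem := Nat.sInf_mem hne
  change roundNumber (edges n) (1 / 2) ∈ _ at hmem
  obtain ⟨l, hl, _, hfire⟩ := hmem
  by_contra hlt
  push Not at hlt
  have hle : l.length ≤ ℓ := by omega
  have hpow : 3 ^ l.length ≤ 3 ^ ℓ := Nat.pow_le_pow_right (by norm_num) hle
  have h1 := fire_card_le n l (by omega)
  rw [hfire, card_univ, Fintype.card_fin] at h1
  omega

/-- For every `ℓ` there are a hypergraph `H` with an edge containing all vertices (so `H` is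
connected and has no isolated vertices) and proportions `p`, `q` such that both lazy burning numbers
are `1`, while `b_p(H) = 2` and `b_q(H) ≥ ℓ`. -/
theorem result :
    ∀ ℓ : ℕ, ∃ (n : ℕ) (E : Finset (Finset (Fin n))) (p q : ℝ), 0 < p ∧ p < 1 ∧ 0 < q ∧ q < 1 ∧
      univ ∈ E ∧ lazyNumber E p = 1 ∧ lazyNumber E q = 1 ∧
      roundNumber E p = 2 ∧ ℓ ≤ roundNumber E q := by
  intro ℓ
  have h3 : 3 ≤ 3 ^ (ℓ + 1) := by
    calc 3 = 3 ^ 1 := by norm_num
      _ ≤ 3 ^ (ℓ + 1) := Nat.pow_le_pow_right (by norm_num) (by omega)
  obtain ⟨n, hn⟩ : ∃ n, n + 1 = 3 ^ (ℓ + 1) := ⟨3 ^ (ℓ + 1) - 1, by omega⟩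
  have hn2 : 2 ≤ n := by omega
  have hn3 : (3 : ℝ) ≤ (n : ℝ) + 1 := by
    have : 3 ≤ n + 1 := by omega
    exact_mod_cast this
  have hpos : 0 < 1 / ((n : ℝ) + 1) := by positivity
  have hle : 1 / ((n : ℝ) + 1) ≤ 1 / 2 := by
    rw [div_le_div_iff₀ (by linarith) (by norm_num)]
    linarith
  refine ⟨n + 1, edges n, 1 / ((n : ℝ) + 1), 1 / 2, hpos, by linarith, by norm_num, by norm_num,
    mem_insert_self _ _, lazyNumber_eq_one n _ hpos hle, lazyNumber_eq_one n _ (by norm_num) le_rfl,
    roundNumber_eq_two n (by omega) _ hpos ?_, ?_⟩
  · rw [one_div, inv_mul_cancel₀]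
    linarith
  · have := le_roundNumber (ℓ + 1) n hn
    omega

end Pool.Agent.Results.MP_6677ae_co.LazyDoesNotDetermine
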